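import Pool.Agent.H38.Hyp.Fin

/-!
Straight-line realizability of linear hypergraphs of rank at most three is hard for the
existential theory of the reals.
-/

namespace Pool.Agent.Results.MP_cb2e2a_lc.Rank3

open Pool.Agent.H38.NP Pool.Agent.H38.ER Pool.Agent.H38.Hyp

theorem result : ERHardOn (LinH 3) Realizable := real_erh.hardOn

end Pool.Agent.Results.MP_cb2e2a_lc.Rank3
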